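import Mathlib

/-!
# MP_23f360_gt : d-independence of a group whose square is d-independent

There is (in ZFC) a separable Hausdorff Boolean topological group `G` such that `G × G` is
d-independent but `G` is not d-independent.
-/

namespace Pool.Agent.Results.MP_23f360_gt.SquareDIndependent

open Set Cardinal

/-- A topological abelian group `G` is d-independent if it is nontrivial and each subgroup `S` of
cardinality less than the continuum meets some countable dense subgroup `D` only in `0`. -/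
def DIndependent (G : Type) [AddCommGroup G] [TopologicalSpace G] : Prop :=
  Nontrivial G ∧ ∀ S : AddSubgroup G, #S < 𝔠 →
    ∃ D : AddSubgroup G, (D : Set G).Countable ∧ Dense (D : Set G) ∧ S ⊓ D = ⊥

/-- finite vectors -/
abbrev FV : Type := ℕ →₀ ZMod 2

/-- the tasks: countably many indices and for each of them a sequence of finite vectors -/
abbrev Task : Type := (ℕ → ℝ) × (ℕ → ℕ → FV)

/-- the index set -/
abbrev Om : Type := (𝔠 : Cardinal.{0}).ord.ToType

theorem mk_task_le : #Task ≤ #Om := by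
  have h1 : #(ℕ → ℝ) = 𝔠 := by simp [mk_real]
  have h2 : #(ℕ → ℕ → FV) = 𝔠 := by simp
  rw [mk_ord_toType, Task, mk_prod, h1, h2]
  simp

theorem exists_task : ∃ f : Om → Task, Function.Surjective f := by
  have : Nonempty Task := ⟨(fun _ => 0, fun _ _ => 0)⟩
  obtain ⟨g⟩ := (Cardinal.le_def _ _).1 mk_task_le
  exact ⟨Function.invFun g, Function.invFun_surjective g.injective⟩

/-- an enumeration of the tasks -/
noncomputable def task : Om → Task := exists_task.choose

theorem task_surj : Function.Surjective task := exists_task.choose_spec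

/-- the pairing of a finite vector with a vector -/
noncomputable def dot (v : FV) (x : ℕ → ZMod 2) : ZMod 2 := Finsupp.linearCombination (ZMod 2) x v

open Classical in
/-- the finite vector attached by the task `s` to the index `(i, n)` -/
noncomputable def th (s : Task) (i : ℝ) (n : ℕ) : FV :=
  if h : ∃ k, s.1 k = i then s.2 (Nat.find h) n else 0

theorem step (t : Om) (y : Iio t → ℕ → ZMod 2) :
    ∃ v : ℕ → ZMod 2, v 0 = 1 ∧ ∀ (l l' : List (Iio t)) (i : ℝ),
      v ≠ fun n => (l.map fun s => y s n).sum +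
        (l'.map fun s : Iio t => dot (th (task s) i n) (y s)).sum := by
  classical
  have hA : #(Iio t) < 𝔠 := mk_Iio_toType_ord_lt t
  have hL : #(List (Iio t)) < 𝔠 :=
    (mk_list_le_max _).trans_lt (max_lt aleph0_lt_continuum hA)
  let Φ : List (Iio t) × List (Iio t) × Option (Iio t × ℕ) → (ℕ → ZMod 2) := fun p n =>
    match p.2.2 with
    | none => (p.1.map fun s => y s n).sum
    | some q => (p.1.map fun s => y s n).sum +
        (p.2.1.map fun s : Iio t => dot (th (task s) ((task q.1).1 q.2) n) (y s)).sum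
  let Ψ : (List (Iio t) × List (Iio t) × Option (Iio t × ℕ)) × ZMod 2 → (ℕ → ZMod 2) :=
    fun p => Function.update (Φ p.1) 0 p.2
  have hcard : #((List (Iio t) × List (Iio t) × Option (Iio t × ℕ)) × ZMod 2) < 𝔠 := by
    rw [mk_prod, mk_prod, mk_prod, mk_option, mk_prod]
    simp only [lift_uzero]
    have h2 : #(ZMod 2) < 𝔠 := (lt_aleph0_of_finite _).trans aleph0_lt_continuum
    have h1 : (1 : Cardinal) < 𝔠 := one_lt_aleph0.trans aleph0_lt_continuum
    have hN : #ℕ < 𝔠 := by rw [mk_nat]; exact aleph0_lt_continuum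
    exact mul_lt_of_lt aleph0_le_continuum (mul_lt_of_lt aleph0_le_continuum hL
      (mul_lt_of_lt aleph0_le_continuum hL (add_lt_of_lt aleph0_le_continuum
        (mul_lt_of_lt aleph0_le_continuum hA hN) h1))) h2
  have hns : ¬ Function.Surjective Ψ := by
    intro h
    have h1 := mk_le_of_surjective h
    have h2 : #(ℕ → ZMod 2) = 𝔠 := by
      simp
    rw [h2] at h1
    exact absurd hcard (not_lt.2 h1)
  obtain ⟨v0, hv0⟩ : ∃ v0, ∀ p, Ψ p ≠ v0 := by
    by_contra! hcon
    exact hns hcon
  refine ⟨Function.update v0 0 1, Function.update_self _ _ _, ?_⟩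
  intro l l' i heq
  obtain ⟨p, hp⟩ : ∃ p, Function.update v0 0 1 = Φ p := by
    by_cases h : ∃ s0 : Iio t, ∃ k, (task s0).1 k = i
    · obtain ⟨s0, k, rfl⟩ := h
      exact ⟨(l, l', some (s0, k)), heq⟩
    · refine ⟨(l, l', none), ?_⟩
      rw [heq]
      funext n
      have h1 : (l'.map fun s : Iio t => dot (th (task s) i n) (y s)).sum = 0 := by
        apply List.sum_eq_zero
        intro z hz
        obtain ⟨s, -, rfl⟩ := List.mem_map.1 hz
        have h2 : th (task s) i n = 0 := dif_neg fun ⟨k, hk⟩ => h ⟨s, k, hk⟩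
        rw [h2]
        exact map_zero _
      change _ = (l.map fun s => y s n).sum
      rw [h1, add_zero]
  apply hv0 (p, v0 0)
  change Function.update (Φ p) 0 (v0 0) = v0
  rw [← hp]
  simp

/-- the vectors -/
noncomputable def xv : Om → ℕ → ZMod 2 :=
  WellFounded.fix (wellFounded_lt (α := Om)) fun t y => (step t fun s => y s.1 s.2).choose

theorem xv_spec (t : Om) : xv t 0 = 1 ∧ ∀ (l l' : List (Iio t)) (i : ℝ),
      xv t ≠ fun n => (l.map fun s : Iio t => xv s n).sum +
        (l'.map fun s : Iio t => dot (th (task s) i n) (xv s)).sum := by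
  have h : xv t = (step t fun s => xv s.1).choose := by
    unfold xv
    rw [WellFounded.fix_eq]
  rw [h]
  exact (step t fun s => xv s.1).choose_spec

/-- the generators of the countable dense subgroup -/
noncomputable def dv (n : ℕ) : Om → ZMod 2 := fun t => xv t n

/-- the other generators -/
noncomputable def ev (p : ℝ × ℕ) : Om → ZMod 2 := fun t => dot (th (task t) p.1 p.2) (xv t)

noncomputable def dl : FV →ₗ[ZMod 2] (Om → ZMod 2) := Finsupp.linearCombination (ZMod 2) dv

noncomputable def el : (ℝ × ℕ →₀ ZMod 2) →ₗ[ZMod 2] (Om → ZMod 2) :=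
  Finsupp.linearCombination (ZMod 2) ev

theorem dl_apply (p : FV) (t : Om) : dl p t = dot p (xv t) := by
  have h : (LinearMap.proj t : (Om → ZMod 2) →ₗ[ZMod 2] ZMod 2) ∘ₗ dl =
      Finsupp.linearCombination (ZMod 2) (xv t) := by
    ext n
    simp [dl, dv]
  exact LinearMap.congr_fun h p

theorem el_apply (q : ℝ × ℕ →₀ ZMod 2) (t : Om) :
    el q t = q.sum fun a c => c * dot (th (task t) a.1 a.2) (xv t) := by
  have h : (LinearMap.proj t : (Om → ZMod 2) →ₗ[ZMod 2] ZMod 2) ∘ₗ el =
      Finsupp.linearCombination (ZMod 2) (fun a => ev a t) := by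
    ext a
    simp [el]
  have h1 := LinearMap.congr_fun h q
  change el q t = _ at h1
  rw [h1, Finsupp.linearCombination_apply]
  rfl

theorem zmod2_eq_one {a : ZMod 2} (h : a ≠ 0) : a = 1 := by
  revert a; decide

theorem zmod2_add_self (a : ZMod 2) : a + a = 0 := by
  revert a; decide

theorem th_eq {s : Task} {i : ℝ} {n : ℕ} {v : FV} (h : ∃ k, s.1 k = i)
    (h' : ∀ k, s.1 k = i → s.2 k n = v) : th s i n = v := by
  classical
  unfold th
  rw [dif_pos h]
  exact h' _ (Nat.find_spec h)

/-- independence -/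
theorem indep {p : FV} {q : ℝ × ℕ →₀ ZMod 2} (h : dl p + el q = 0) : q = 0 := by
  classical
  by_contra hq
  obtain ⟨a0, ha0⟩ : ∃ a, q a ≠ 0 := by
    by_contra! hcon
    exact hq (Finsupp.ext hcon)
  have hfin : (q.support.image Prod.fst : Set ℝ).Countable := Finset.countable_toSet _
  obtain ⟨idx, hidx⟩ := hfin.exists_eq_range
    ⟨a0.1, Finset.mem_coe.2 (Finset.mem_image_of_mem _ (Finsupp.mem_support_iff.2 ha0))⟩
  obtain ⟨t, ht⟩ := task_surj
    (idx, fun k n => if (idx k, n) = a0 then p + Finsupp.single 0 1 else 0)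
  have hth : ∀ a ∈ q.support, th (task t) a.1 a.2 = if a = a0 then p + Finsupp.single 0 1 else 0 := by
    intro a ha
    have h1 : a.1 ∈ range idx := by
      rw [← hidx]
      exact Finset.mem_coe.2 (Finset.mem_image_of_mem _ ha)
    rw [ht]
    apply th_eq
    · obtain ⟨k, hk⟩ := h1
      exact ⟨k, hk⟩
    · intro k hk
      change (if (idx k, a.2) = a0 then _ else _) = _
      have hk' : idx k = a.1 := hk
      rw [hk']
  have h2 := congrFun h t
  rw [Pi.add_apply, dl_apply, el_apply, Finsupp.sum, Finset.sum_congr rfl fun a ha => by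
    rw [hth a ha]] at h2
  have h3 : ∑ a ∈ q.support, q a * dot (if a = a0 then p + Finsupp.single 0 1 else 0) (xv t) =
      dot p (xv t) + 1 := by
    rw [Finset.sum_eq_single a0]
    · rw [if_pos rfl, zmod2_eq_one ha0, one_mul]
      unfold dot
      rw [map_add, Finsupp.linearCombination_single, (xv_spec t).1, one_smul]
    · intro b _ hb
      rw [if_neg hb]
      have : dot 0 (xv t) = 0 := map_zero _
      rw [this, mul_zero]
    · intro hcon
      exact absurd (Finsupp.mem_support_iff.2 ha0) hcon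
  rw [h3, ← add_assoc, zmod2_add_self, zero_add] at h2
  exact one_ne_zero h2

/-- the parametrisation of the group -/
noncomputable def Lm : (FV × (ℝ × ℕ →₀ ZMod 2)) →ₗ[ZMod 2] (Om → ZMod 2) := dl.coprod el

theorem Lm_apply (p : FV) (q : ℝ × ℕ →₀ ZMod 2) : Lm (p, q) = dl p + el q := by
  simp [Lm]

/-- the group -/
noncomputable def Gr : AddSubgroup (Om → ZMod 2) := (LinearMap.range Lm).toAddSubgroup

theorem mem_Gr {f : Om → ZMod 2} : f ∈ Gr ↔ ∃ p q, dl p + el q = f := by
  constructor
  · rintro ⟨⟨p, q⟩, h⟩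
    exact ⟨p, q, by rw [← h, Lm_apply]⟩
  · rintro ⟨p, q, h⟩
    exact ⟨(p, q), by rw [← h, Lm_apply]⟩

/-- the countable dense subgroup -/
noncomputable def S0 : AddSubgroup Gr := (LinearMap.range dl).toAddSubgroup.comap Gr.subtype

theorem mem_S0 {g : Gr} : g ∈ S0 ↔ ∃ p, dl p = g.1 := Iff.rfl

theorem countable_S0 : (S0 : Set Gr).Countable := by
  have h : (range dl).Countable := countable_range _
  exact h.preimage Subtype.val_injective

theorem exists_theta {P W : Type} [AddCommGroup P] [AddCommGroup W] [Module (ZMod 2) P]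
    [Module (ZMod 2) W] (K : Submodule (ZMod 2) (P × W)) :
    ∃ θ : W →ₗ[ZMod 2] P, ∀ a ∈ K, (a.1 - θ a.2, (0 : W)) ∈ K := by
  let π : K →ₗ[ZMod 2] W := (LinearMap.snd (ZMod 2) P W).comp K.subtype
  obtain ⟨σ, hσ⟩ := LinearMap.exists_rightInverse_of_surjective π.rangeRestrict
    (LinearMap.range_rangeRestrict π)
  obtain ⟨θ, hθ⟩ := LinearMap.exists_extend
    (((LinearMap.fst (ZMod 2) P W).comp K.subtype).comp σ)
  refine ⟨θ, fun a ha => ?_⟩
  have h1 : a.2 ∈ LinearMap.range π := ⟨⟨a, ha⟩, rfl⟩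
  let b : K := σ ⟨a.2, h1⟩
  have hb1 : b.1.1 = θ a.2 := (LinearMap.congr_fun hθ ⟨a.2, h1⟩).symm
  have hb2 : b.1.2 = a.2 := congrArg Subtype.val (LinearMap.congr_fun hσ ⟨a.2, h1⟩)
  have h3 : a - b.1 ∈ K := K.sub_mem ha b.2
  have h4 : a - b.1 = (a.1 - θ a.2, 0) := by
    ext1
    · change a.1 - b.1.1 = _
      rw [hb1]
    · change a.2 - b.1.2 = 0
      rw [hb2, sub_self]
  rwa [h4] at h3

theorem exists_vanish (D : AddSubgroup Gr) (hD : (D : Set Gr).Countable) (hS : S0 ⊓ D = ⊥) :
    ∃ t : Om, ∀ g ∈ D, g.1 t = 0 := by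
  classical
  -- representations
  have hrep : ∀ g : Gr, ∃ a : FV × (ℝ × ℕ →₀ ZMod 2), Lm a = g.1 := fun g => g.2
  choose r hr using hrep
  -- the subspace of all representations of elements of `D`
  let K : Submodule (ZMod 2) (FV × (ℝ × ℕ →₀ ZMod 2)) :=
    AddSubgroup.toZModSubmodule 2 ((D.map Gr.subtype).comap Lm.toAddMonoidHom)
  have hK : ∀ a, a ∈ K ↔ ∃ g ∈ D, g.1 = Lm a := by
    intro a
    change Lm.toAddMonoidHom a ∈ D.map Gr.subtype ↔ _
    rw [AddSubgroup.mem_map]
    rfl
  -- a linear map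
  obtain ⟨θ, hθ⟩ := exists_theta K
  have hkey : ∀ a ∈ K, dl a.1 = dl (θ a.2) := by
    intro a ha
    obtain ⟨g, hg, hg'⟩ := (hK _).1 (hθ a ha)
    rw [Lm_apply, map_zero, add_zero] at hg'
    have h5 : g ∈ S0 ⊓ D := ⟨mem_S0.2 ⟨a.1 - θ a.2, hg'.symm⟩, hg⟩
    rw [hS, AddSubgroup.mem_bot] at h5
    rw [h5, map_sub] at hg'
    exact (sub_eq_zero.1 hg'.symm)
  -- the indices that occur
  let J : Set ℝ := insert 0 (⋃ g ∈ (D : Set Gr), (Prod.fst '' ((r g).2.support : Set (ℝ × ℕ))))
  have hJ : J.Countable := by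
    refine Countable.insert _ (hD.biUnion fun g _ => ?_)
    exact (Finset.countable_toSet _).image _
  obtain ⟨idx, hidx⟩ := hJ.exists_eq_range ⟨0, mem_insert _ _⟩
  obtain ⟨t, ht⟩ := task_surj (idx, fun k n => θ (Finsupp.single (idx k, n) 1))
  refine ⟨t, fun g hg => ?_⟩
  have hth : ∀ a ∈ (r g).2.support, th (task t) a.1 a.2 = θ (Finsupp.single a 1) := by
    intro a ha
    have h1 : a.1 ∈ range idx := by
      rw [← hidx]
      exact Or.inr (mem_biUnion hg ⟨a, ha, rfl⟩)
    rw [ht]
    apply th_eq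
    · obtain ⟨k, hk⟩ := h1
      exact ⟨k, hk⟩
    · intro k hk
      have hk' : idx k = a.1 := hk
      change θ (Finsupp.single (idx k, a.2) 1) = _
      rw [hk']
  have h1 : r g ∈ K := (hK _).2 ⟨g, hg, (hr g).symm⟩
  have h2 : g.1 t = dot (r g).1 (xv t) + el (r g).2 t := by
    rw [← hr g]
    change Lm ((r g).1, (r g).2) t = _
    rw [Lm_apply, Pi.add_apply, dl_apply]
  have h3 : el (r g).2 t = dot (θ (r g).2) (xv t) := by
    rw [el_apply, Finsupp.sum, Finset.sum_congr rfl fun a ha => by rw [hth a ha]]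
    have h4 : θ (r g).2 = ∑ a ∈ (r g).2.support, (r g).2 a • θ (Finsupp.single a 1) := by
      conv_lhs => rw [← Finsupp.sum_single (r g).2, Finsupp.sum, map_sum]
      refine Finset.sum_congr rfl fun a _ => ?_
      rw [← map_smul, Finsupp.smul_single, smul_eq_mul, mul_one]
    unfold dot
    rw [h4, map_sum]
    refine Finset.sum_congr rfl fun a _ => ?_
    rw [map_smul, smul_eq_mul]
  rw [h2, h3, ← dl_apply, ← dl_apply, hkey _ h1]
  exact zmod2_add_self _

/-- the group is not d-independent -/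
theorem not_dIndependent : ¬ DIndependent Gr := by
  rintro ⟨-, h⟩
  obtain ⟨D, hD, hdense, hS⟩ := h S0 ((countable_S0.le_aleph0).trans_lt aleph0_lt_continuum)
  obtain ⟨t, ht⟩ := exists_vanish D hD hS
  have h0 : dv 0 ∈ Gr := mem_Gr.2 ⟨Finsupp.single 0 1, 0, by simp [dl]⟩
  have hcont : Continuous fun g : Gr => g.1 t := (continuous_apply t).comp continuous_subtype_val
  have hopen : IsOpen {g : Gr | g.1 t = 1} := (isOpen_discrete {(1 : ZMod 2)}).preimage hcont
  obtain ⟨g, hg, hgD⟩ := hdense.inter_open_nonempty _ hopen ⟨⟨dv 0, h0⟩, (xv_spec t).1⟩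
  have hg' : g.1 t = 1 := hg
  rw [ht g hgD] at hg'
  exact zero_ne_one hg'

/-! ### The square -/

/-- the pairing with finite sums of coordinates -/
noncomputable def pair (α : Om →₀ ZMod 2) (f : Om → ZMod 2) : ZMod 2 :=
  Finsupp.linearCombination (ZMod 2) f α

theorem exists_list (t : Om) (γ : Om →₀ ZMod 2) (hγ : ∀ s, γ s ≠ 0 → s < t) :
    ∃ l : List (Iio t), ∀ f : Om → ZMod 2, (l.map fun s : Iio t => f s).sum = pair γ f := by
  classical
  refine ⟨γ.support.attach.toList.map fun s => ⟨s.1, hγ _ (Finsupp.mem_support_iff.1 s.2)⟩, ?_⟩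
  intro f
  rw [List.map_map]
  change (γ.support.attach.toList.map fun s => f s.1).sum = _
  rw [Finset.sum_map_toList, Finset.sum_attach γ.support f, pair, Finsupp.linearCombination_apply,
    Finsupp.sum]
  refine Finset.sum_congr rfl fun s hs => ?_
  rw [zmod2_eq_one (Finsupp.mem_support_iff.1 hs), one_smul]

theorem generic_step (t : Om) (i : ℝ) (γ δ : Om →₀ ZMod 2) (hγ : ∀ s, γ s ≠ 0 → s < t)
    (hδ : ∀ s, δ s ≠ 0 → s < t)
    (h : ∀ n, xv t n = pair γ (dv n) + pair δ (ev (i, n))) : False := by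
  obtain ⟨l, hl⟩ := exists_list t γ hγ
  obtain ⟨l', hl'⟩ := exists_list t δ hδ
  apply (xv_spec t).2 l l' i
  funext n
  rw [h n, ← hl, ← hl']
  rfl

theorem pair_erase (α : Om →₀ ZMod 2) (t : Om) (f : Om → ZMod 2) :
    pair α f = pair (α.erase t) f + α t * f t := by
  unfold pair
  conv_lhs => rw [← Finsupp.erase_add_single t α]
  rw [map_add, Finsupp.linearCombination_single, smul_eq_mul]

theorem pair_add (α β : Om →₀ ZMod 2) (f : Om → ZMod 2) :
    pair (α + β) f = pair α f + pair β f := map_add _ _ _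

theorem generic (i : ℝ) (α β : Om →₀ ZMod 2)
    (h1 : ∀ n, pair α (dv n) + pair β (dv n) + pair β (ev (i, n)) = 0)
    (h2 : ∀ n, pair α (ev (i, n)) + pair β (dv n) = 0) : α = 0 ∧ β = 0 := by
  classical
  by_contra hcon
  have hne : (α.support ∪ β.support).Nonempty := by
    rw [Finset.nonempty_iff_ne_empty]
    intro h
    rw [Finset.union_eq_empty, Finsupp.support_eq_empty, Finsupp.support_eq_empty] at h
    exact hcon h
  obtain ⟨t, ht, hmax⟩ := (α.support ∪ β.support).exists_max_image id hne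
  have hα : ∀ s, α.erase t s ≠ 0 → s < t := by
    intro s hs
    have hst : s ≠ t := fun h => hs (by rw [h, Finsupp.erase_same])
    rw [Finsupp.erase_ne hst] at hs
    exact lt_of_le_of_ne (hmax s (Finset.mem_union_left _ (Finsupp.mem_support_iff.2 hs))) hst
  have hβ : ∀ s, β.erase t s ≠ 0 → s < t := by
    intro s hs
    have hst : s ≠ t := fun h => hs (by rw [h, Finsupp.erase_same])
    rw [Finsupp.erase_ne hst] at hs
    exact lt_of_le_of_ne (hmax s (Finset.mem_union_right _ (Finsupp.mem_support_iff.2 hs))) hst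
  have hαβ : ∀ s, (α.erase t + β.erase t) s ≠ 0 → s < t := by
    intro s hs
    by_cases h : α.erase t s = 0
    · apply hβ s
      intro h'
      apply hs
      rw [Finsupp.add_apply, h, h', add_zero]
    · exact hα s h
  have h1' : ∀ n, pair (α.erase t) (dv n) + α t * xv t n +
      (pair (β.erase t) (dv n) + β t * xv t n) +
      (pair (β.erase t) (ev (i, n)) + β t * ev (i, n) t) = 0 := by
    intro n
    rw [← h1 n, pair_erase α t (dv n), pair_erase β t (dv n), pair_erase β t (ev (i, n))]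
    rfl
  have h2' : ∀ n, pair (α.erase t) (ev (i, n)) + α t * ev (i, n) t +
      (pair (β.erase t) (dv n) + β t * xv t n) = 0 := by
    intro n
    rw [← h2 n, pair_erase α t (ev (i, n)), pair_erase β t (dv n)]
    rfl
  rcases eq_or_ne (α t) 0 with ha | ha
  · rcases eq_or_ne (β t) 0 with hb | hb
    · rw [Finset.mem_union, Finsupp.mem_support_iff, Finsupp.mem_support_iff] at ht
      rcases ht with ht | ht
      · exact ht ha
      · exact ht hb
    · have hb' := zmod2_eq_one hb
      apply generic_step t i (β.erase t) (α.erase t) hβ hα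
      intro n
      have := h2' n
      rw [ha, hb'] at this
      revert this
      generalize pair (α.erase t) (ev (i, n)) = a
      generalize ev (i, n) t = b
      generalize pair (β.erase t) (dv n) = c
      generalize xv t n = d
      revert a b c d
      decide
  · have ha' := zmod2_eq_one ha
    rcases eq_or_ne (β t) 0 with hb | hb
    · apply generic_step t i (α.erase t + β.erase t) (β.erase t) hαβ hβ
      intro n
      have := h1' n
      rw [ha', hb] at this
      rw [pair_add]
      revert this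
      generalize pair (α.erase t) (dv n) = a
      generalize pair (β.erase t) (ev (i, n)) = e
      generalize ev (i, n) t = b
      generalize pair (β.erase t) (dv n) = c
      generalize xv t n = d
      revert a b c d e
      decide
    · have hb' := zmod2_eq_one hb
      apply generic_step t i (α.erase t) (α.erase t + β.erase t) hα hαβ
      intro n
      have h3 := h1' n
      have h4 := h2' n
      rw [ha', hb'] at h3 h4
      rw [pair_add]
      revert h3 h4
      generalize pair (α.erase t) (dv n) = a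
      generalize pair (α.erase t) (ev (i, n)) = g
      generalize pair (β.erase t) (ev (i, n)) = e
      generalize ev (i, n) t = b
      generalize pair (β.erase t) (dv n) = c
      generalize xv t n = d
      revert a b c d e g
      decide

theorem exists_pair (F : Finset Om) (φ : (F → ZMod 2) →ₗ[ZMod 2] ZMod 2) :
    ∃ α : Om →₀ ZMod 2, ∀ f : Om → ZMod 2, pair α f = φ fun t => f t := by
  classical
  refine ⟨∑ t : F, Finsupp.single t.1 (φ fun j => if t = j then 1 else 0), fun f => ?_⟩
  rw [LinearMap.pi_apply_eq_sum_univ φ (fun t : F => f t)]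
  unfold pair
  rw [map_sum]
  refine Finset.sum_congr rfl fun t _ => ?_
  rw [Finsupp.linearCombination_single, smul_eq_mul, smul_eq_mul, mul_comm]

/-- the block of the index `i` -/
noncomputable def blk (i : ℝ) : FV →ₗ[ZMod 2] (ℝ × ℕ →₀ ZMod 2) :=
  Finsupp.lmapDomain _ _ fun n => (i, n)

/-- the map whose image is the dense subgroup of the square -/
noncomputable def Mi (i : ℝ) : (FV × FV) →ₗ[ZMod 2] ((Om → ZMod 2) × (Om → ZMod 2)) :=
  (dl.coprod (el.comp (blk i))).prod ((dl + el.comp (blk i)).coprod dl)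

theorem Mi_apply (i : ℝ) (a b : FV) :
    Mi i (a, b) = (dl a + el (blk i b), dl a + el (blk i a) + dl b) := by
  simp [Mi]

theorem Mi_surj (i : ℝ) (F : Finset Om) (f g : Om → ZMod 2) :
    ∃ a b, ∀ t ∈ F, (Mi i (a, b)).1 t = f t ∧ (Mi i (a, b)).2 t = g t := by
  classical
  let res : (Om → ZMod 2) →ₗ[ZMod 2] (F → ZMod 2) := LinearMap.funLeft _ _ Subtype.val
  let R : (FV × FV) →ₗ[ZMod 2] ((F → ZMod 2) × (F → ZMod 2)) := (res.prodMap res).comp (Mi i)
  have hR : LinearMap.range R = ⊤ := by
    by_contra hcon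
    obtain ⟨φ, hφ, hle⟩ := Submodule.exists_le_ker_of_lt_top _ (lt_top_iff_ne_top.2 hcon)
    obtain ⟨α, hα⟩ := exists_pair F (φ.comp (LinearMap.inl _ _ _))
    obtain ⟨β, hβ⟩ := exists_pair F (φ.comp (LinearMap.inr _ _ _))
    have hsum : ∀ u v : Om → ZMod 2, φ (res u, res v) = pair α u + pair β v := by
      intro u v
      rw [hα, hβ]
      change _ = φ (res u, 0) + φ (0, res v)
      rw [← map_add]
      simp
    have hz : ∀ a b, φ (R (a, b)) = 0 := fun a b => hle ⟨(a, b), rfl⟩
    have hRab : ∀ a b, R (a, b) = (res (Mi i (a, b)).1, res (Mi i (a, b)).2) := fun a b => rfl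
    have hpa : ∀ (γ : Om →₀ ZMod 2) (u v : Om → ZMod 2), pair γ (u + v) = pair γ u + pair γ v := by
      intro γ u v
      unfold pair
      simp only [Finsupp.linearCombination_apply, Finsupp.sum, smul_eq_mul, Pi.add_apply, mul_add,
        Finset.sum_add_distrib]
    have hd : ∀ n, dl (Finsupp.single n 1) = dv n := fun n => by simp [dl]
    have he : ∀ n, el (blk i (Finsupp.single n 1)) = ev (i, n) := fun n => by simp [el, blk]
    obtain ⟨hα0, hβ0⟩ := generic i α β (by
      intro n
      have h := hz (Finsupp.single n 1) 0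
      rw [hRab, hsum, Mi_apply] at h
      simp only [map_zero, add_zero] at h
      rw [hd, he, hpa] at h
      rw [← h, add_assoc]) (by
      intro n
      have h := hz 0 (Finsupp.single n 1)
      rw [hRab, hsum, Mi_apply] at h
      simp only [map_zero, zero_add] at h
      rw [hd, he] at h
      exact h)
    apply hφ
    apply LinearMap.ext
    rintro ⟨u, v⟩
    have hu : ∀ w : F → ZMod 2, ∃ w' : Om → ZMod 2, res w' = w := by
      intro w
      refine ⟨fun t => if h : t ∈ F then w ⟨t, h⟩ else 0, ?_⟩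
      funext t
      change (if h : t.1 ∈ F then w ⟨t.1, h⟩ else 0) = w t
      rw [dif_pos t.2]
    obtain ⟨u', rfl⟩ := hu u
    obtain ⟨v', rfl⟩ := hu v
    rw [hsum, hα0, hβ0]
    simp [pair]
  obtain ⟨⟨a, b⟩, hab⟩ : (res f, res g) ∈ LinearMap.range R := hR ▸ Submodule.mem_top
  refine ⟨a, b, fun t ht => ⟨?_, ?_⟩⟩
  · exact congrFun (congrArg Prod.fst hab) ⟨t, ht⟩
  · exact congrFun (congrArg Prod.snd hab) ⟨t, ht⟩

theorem Mi_mem (i : ℝ) (a b : FV) : (Mi i (a, b)).1 ∈ Gr ∧ (Mi i (a, b)).2 ∈ Gr := by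
  rw [Mi_apply]
  refine ⟨mem_Gr.2 ⟨a, blk i b, rfl⟩, mem_Gr.2 ⟨a + b, blk i a, ?_⟩⟩
  rw [map_add, add_right_comm]

/-- the dense subgroup of the square -/
noncomputable def Dsub (i : ℝ) : AddSubgroup (Gr × Gr) where
  carrier := {z | ∃ a b, Mi i (a, b) = (z.1.1, z.2.1)}
  zero_mem' := ⟨0, 0, map_zero _⟩
  add_mem' := by
    rintro z w ⟨a, b, h⟩ ⟨a', b', h'⟩
    refine ⟨a + a', b + b', ?_⟩
    have : ((a + a', b + b') : FV × FV) = (a, b) + (a', b') := rfl
    rw [this, map_add, h, h']
    rfl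
  neg_mem' := by
    rintro z ⟨a, b, h⟩
    refine ⟨-a, -b, ?_⟩
    have : ((-a, -b) : FV × FV) = -(a, b) := rfl
    rw [this, map_neg, h]
    rfl

theorem countable_Dsub (i : ℝ) : (Dsub i : Set (Gr × Gr)).Countable := by
  have h : (range fun p : FV × FV => Mi i p).Countable := countable_range _
  have hinj : Function.Injective fun z : Gr × Gr => ((z.1.1, z.2.1) : (Om → ZMod 2) × (Om → ZMod 2)) := by
    rintro ⟨⟨a, _⟩, ⟨b, _⟩⟩ ⟨⟨c, _⟩, ⟨d, _⟩⟩ h
    simp only [Prod.mk.injEq] at h
    obtain ⟨rfl, rfl⟩ := h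
    rfl
  refine (h.preimage hinj).mono ?_
  rintro z ⟨a, b, hab⟩
  exact ⟨(a, b), hab⟩

theorem nhds_finite (g : Gr) {U : Set Gr} (hU : U ∈ nhds g) :
    ∃ F : Finset Om, ∀ h : Gr, (∀ t ∈ F, h.1 t = g.1 t) → h ∈ U := by
  rw [nhds_subtype_eq_comap, Filter.mem_comap] at hU
  obtain ⟨V, hV, hVU⟩ := hU
  rw [nhds_pi, Filter.mem_pi] at hV
  obtain ⟨I, hI, s, hs, hsV⟩ := hV
  refine ⟨hI.toFinset, fun h hh => hVU (hsV fun t ht => ?_)⟩
  rw [hh t (hI.mem_toFinset.2 ht)]
  exact mem_of_mem_nhds (hs t)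

theorem dense_Dsub (i : ℝ) : Dense (Dsub i : Set (Gr × Gr)) := by
  rintro ⟨f, g⟩
  rw [mem_closure_iff_nhds]
  intro O hO
  rw [nhds_prod_eq, Filter.mem_prod_iff] at hO
  obtain ⟨U, hU, V, hV, hUV⟩ := hO
  obtain ⟨F, hF⟩ := nhds_finite f hU
  obtain ⟨F', hF'⟩ := nhds_finite g hV
  classical
  obtain ⟨a, b, hab⟩ := Mi_surj i (F ∪ F') f.1 g.1
  refine ⟨(⟨(Mi i (a, b)).1, (Mi_mem i a b).1⟩, ⟨(Mi i (a, b)).2, (Mi_mem i a b).2⟩), ?_, ?_⟩
  · apply hUV
    exact ⟨hF _ fun t ht => (hab t (Finset.mem_union_left _ ht)).1,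
      hF' _ fun t ht => (hab t (Finset.mem_union_right _ ht)).2⟩
  · exact ⟨a, b, rfl⟩

theorem blk_eq_zero {i : ℝ} {b : FV} {p p' : FV} {q : ℝ × ℕ →₀ ZMod 2}
    (h : dl p + el (blk i b) = dl p' + el q) (hq : ∀ n, q (i, n) = 0) : b = 0 := by
  have h1 : dl (p - p') + el (blk i b - q) = 0 := by
    rw [map_sub, map_sub, ← add_sub_add_comm, h, sub_self]
  have h2 := sub_eq_zero.1 (indep h1)
  ext n
  have h3 := DFunLike.congr_fun h2 (i, n)
  rw [hq n] at h3
  have hinj : Function.Injective fun n : ℕ => (i, n) := fun _ _ h => (Prod.mk.inj h).2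
  have h4 : blk i b (i, n) = b n := Finsupp.mapDomain_apply hinj b n
  rw [h4] at h3
  exact h3

theorem square_dIndependent : DIndependent (Gr × Gr) := by
  classical
  constructor
  · have h0 : dv 0 ∈ Gr := mem_Gr.2 ⟨Finsupp.single 0 1, 0, by simp [dl]⟩
    refine ⟨(⟨dv 0, h0⟩, 0), 0, fun h => ?_⟩
    have h1 : dv 0 = 0 := congrArg (fun z : Gr × Gr => z.1.1) h
    obtain ⟨t, -⟩ := task_surj (fun _ => 0, fun _ _ => 0)
    have h2 := congrFun h1 t
    change xv t 0 = 0 at h2
    rw [(xv_spec t).1] at h2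
    exact one_ne_zero h2
  · intro S hS
    have hrep : ∀ g : Gr, ∃ a : FV × (ℝ × ℕ →₀ ZMod 2), dl a.1 + el a.2 = g.1 := by
      intro g
      obtain ⟨p, q, h⟩ := mem_Gr.1 g.2
      exact ⟨(p, q), h⟩
    choose r hr using hrep
    -- an index that does not occur
    have hfin : ∀ g : Gr, ∃ f : ℕ → ℝ, ∀ a ∈ (r g).2.support, a.1 ∈ range f := by
      intro g
      have h1 : (insert 0 ((r g).2.support.image Prod.fst) : Finset ℝ).Nonempty :=
        Finset.insert_nonempty _ _
      obtain ⟨f, hf⟩ := (Finset.countable_toSet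
        (insert 0 ((r g).2.support.image Prod.fst))).exists_eq_range (Finset.coe_nonempty.2 h1)
      refine ⟨f, fun a ha => ?_⟩
      rw [← hf, Finset.mem_coe]
      exact Finset.mem_insert_of_mem (Finset.mem_image_of_mem _ ha)
    choose f hf using hfin
    have hns : ¬ Function.Surjective (fun x : (S × ℕ) × Bool =>
        if x.2 then f x.1.1.1.1 x.1.2 else f x.1.1.1.2 x.1.2) := by
      intro h
      have h1 := mk_le_of_surjective h
      rw [mk_real, mk_prod, mk_prod] at h1
      simp only [lift_uzero] at h1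
      have hN : #ℕ < 𝔠 := by rw [mk_nat]; exact aleph0_lt_continuum
      have hB : #Bool < 𝔠 := (lt_aleph0_of_finite _).trans aleph0_lt_continuum
      exact absurd (mul_lt_of_lt aleph0_le_continuum (mul_lt_of_lt aleph0_le_continuum hS hN) hB)
        (not_lt.2 h1)
    obtain ⟨i, hi⟩ : ∃ i : ℝ, ∀ x : (S × ℕ) × Bool,
        (if x.2 then f x.1.1.1.1 x.1.2 else f x.1.1.1.2 x.1.2) ≠ i := by
      by_contra! hcon
      exact hns hcon
    refine ⟨Dsub i, countable_Dsub i, dense_Dsub i, ?_⟩
    rw [eq_bot_iff]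
    rintro z ⟨hzS, a, b, hab⟩
    have hq1 : ∀ n, (r z.1).2 (i, n) = 0 := by
      intro n
      by_contra hne
      obtain ⟨k, hk⟩ := hf z.1 _ (Finsupp.mem_support_iff.2 hne)
      exact hi ((⟨z, hzS⟩, k), true) hk
    have hq2 : ∀ n, (r z.2).2 (i, n) = 0 := by
      intro n
      by_contra hne
      obtain ⟨k, hk⟩ := hf z.2 _ (Finsupp.mem_support_iff.2 hne)
      exact hi ((⟨z, hzS⟩, k), false) hk
    have e1 : dl a + el (blk i b) = dl (r z.1).1 + el (r z.1).2 := by
      rw [hr z.1]
      have := congrArg Prod.fst hab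
      rw [Mi_apply] at this
      exact this
    have e2 : dl (a + b) + el (blk i a) = dl (r z.2).1 + el (r z.2).2 := by
      rw [hr z.2]
      have := congrArg Prod.snd hab
      rw [Mi_apply] at this
      rw [← show dl a + el (blk i a) + dl b = z.2.1 from this, map_add, add_right_comm]
    have hb := blk_eq_zero e1 hq1
    have ha := blk_eq_zero e2 hq2
    rw [ha, hb] at hab
    have h0 : Mi i (0, 0) = 0 := map_zero _
    rw [h0] at hab
    rw [AddSubgroup.mem_bot]
    ext1
    · exact Subtype.ext (congrArg Prod.fst hab).symm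
    · exact Subtype.ext (congrArg Prod.snd hab).symm

/-- There is (in ZFC) a separable Hausdorff topological abelian group `G` such that `G × G` is
d-independent but `G` is not d-independent. -/
theorem result : ∃ (G : Type) (_ : AddCommGroup G) (_ : TopologicalSpace G),
    IsTopologicalAddGroup G ∧ T2Space G ∧ TopologicalSpace.SeparableSpace G ∧
      DIndependent (G × G) ∧ ¬ DIndependent G := by
  refine ⟨Gr, inferInstance, inferInstance, inferInstance, inferInstance, ?_,
    square_dIndependent, not_dIndependent⟩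
  refine ⟨⟨Prod.fst '' (Dsub 0 : Set (Gr × Gr)), (countable_Dsub 0).image _, ?_⟩⟩
  exact (Prod.fst_surjective.denseRange).dense_image continuous_fst (dense_Dsub 0)

end Pool.Agent.Results.MP_23f360_gt.SquareDIndependent
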